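import Pool.Agent.Helper4.PQ0.St

/-! Module X0 of project PQS (MP_2b6189_al): `p` does not divide `y o`. -/

set_option autoImplicit false

namespace Pool.Agent.Helper47.PQ0

open Pool.Agent.Helper4.PQ0
open Matrix ComplexConjugate Pool.Agent.Helper94.YF Pool.Agent.Helper94.YG
open Pool.Agent.Helper89.OS hiding PD Cx Blk B0 Orb StXA StXB StXC StXE StCGR StISO StBLK StAMG StHEC StSTL StMZZ StDRE StTSU
open Pool.Agent.Helper89.OC hiding Ks gX OB Lk StORB StTS2 StLKD StTAN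

private lemma dvd2X {p : ℕ} {Q : ℂ → Prop} (hQ : PI p Q) (hp : p.Prime) (E : ℤ) (S : ℂ)
    (hS : IsIntegral ℤ S) (hnS : ¬ Q S) (h : IsIntegral ℤ (S * (E : ℂ) / (p : ℂ) ^ 2)) :
    ((p : ℤ) ^ 2) ∣ E := by
  have hp0 : (p : ℂ) ≠ 0 := by exact_mod_cast hp.ne_zero
  have hpi : IsIntegral ℤ (p : ℂ) := by
    have : IsIntegral ℤ (algebraMap ℤ ℂ (p : ℤ)) := isIntegral_algebraMap
    simpa using this
  have hQp : Q ((p : ℤ) : ℂ) := (hQ.int_iff p).2 (dvd_refl _)
  obtain ⟨T, hT⟩ : ∃ T : ℂ, T = S * (E : ℂ) / (p : ℂ) ^ 2 := ⟨_, rfl⟩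
  rw [← hT] at h
  have hEi : ∀ k : ℤ, IsIntegral ℤ (k : ℂ) := fun k => by
    have : IsIntegral ℤ (algebraMap ℤ ℂ k) := isIntegral_algebraMap
    simpa using this
  have h1 : S * (E : ℂ) = (T * p) * ((p : ℤ) : ℂ) := by
    rw [hT]
    push_cast
    field_simp
  have h2 : Q (S * (E : ℂ)) := by
    rw [h1]
    exact hQ.mul _ _ (h.mul hpi) hQp
  have h3 : (p : ℤ) ∣ E := by
    rcases hQ.prime _ _ hS (hEi E) h2 with h | h
    · exact absurd h hnS
    · exact (hQ.int_iff E).1 h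
  obtain ⟨E', rfl⟩ := h3
  have h4 : S * (E' : ℂ) = T * ((p : ℤ) : ℂ) := by
    rw [hT]
    push_cast
    field_simp
  have h5 : Q (S * (E' : ℂ)) := by
    rw [h4]
    exact hQ.mul _ _ h hQp
  have h6 : (p : ℤ) ∣ E' := by
    rcases hQ.prime _ _ hS (hEi E') h5 with h | h
    · exact absurd h hnS
    · exact (hQ.int_iff E').1 h
  obtain ⟨E'', rfl⟩ := h6
  exact ⟨E'', by ring⟩

open Classical in
theorem hX0 : StX0 := by
  intro hRAT hISO I _ _ p a X Q hQ hx
  have hpp : p.Prime := X.prime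
  have pp : Prime (p : ℤ) := Nat.prime_iff_prime_int.mp hpp
  have hp0 : (0 : ℝ) < (p : ℝ) ^ 2 := by
    have : (0 : ℝ) < p := by exact_mod_cast hpp.pos
    positivity
  have hpz : (p : ℤ) ≠ 0 := by exact_mod_cast hpp.ne_zero
  have ht0 : ∀ i, X.t i ≠ 0 := by
    intro i h
    have h1 := X.t_pow i
    rw [h, zero_pow (pow_ne_zero _ hpp.ne_zero)] at h1
    exact zero_ne_one h1
  have hso : ∀ k, X.s X.o k = X.y k := fun k => by rw [X.s_symm, X.s_o]
  have hint : ∀ n : ℤ, IsIntegral ℤ (n : ℂ) := fun n => isIntegral_algebraMap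
  have hnat : ∀ n : ℕ, IsIntegral ℤ (n : ℂ) := fun n => by
    have := hint n
    exact_mod_cast this
  have hnorm : ∀ i, ∑ k, ‖X.s k i‖ ^ 2 = (p : ℝ) ^ 2 := by
    intro i
    have h1 := X.s_uni i i
    rw [if_pos rfl] at h1
    have h2 : ∀ k, X.s i k * conj (X.s i k) = ((‖X.s k i‖ ^ 2 : ℝ) : ℂ) := by
      intro k
      rw [Complex.mul_conj, X.s_symm i k, Complex.normSq_eq_norm_sq]
    rw [Finset.sum_congr rfl (fun k _ => h2 k), ← Complex.ofReal_sum] at h1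
    exact_mod_cast h1
  have hysq : ∑ k, X.y k ^ 2 = (p : ℤ) ^ 2 := by
    have h1 := hnorm X.o
    have h2 : ∀ k, ‖X.s k X.o‖ ^ 2 = ((X.y k ^ 2 : ℤ) : ℝ) := by
      intro k
      rw [X.s_o, Complex.norm_intCast, sq_abs]
      push_cast
      ring
    rw [Finset.sum_congr rfl (fun k _ => h2 k)] at h1
    exact_mod_cast h1
  -- the block
  have hmem : ∀ j, j ∈ B0 X Q ↔ ∀ k, Q (X.chi j k - X.d k) := by
    intro j
    unfold B0
    simp
  have hoB : X.o ∈ B0 X Q := by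
    rw [hmem]
    intro k
    rw [X.o_chi, sub_self]
    exact hQ.zero
  have hBpi : ∀ c j, j ∈ B0 X Q → X.pi c j ∈ B0 X Q := by
    intro c j hj
    rw [hmem] at hj ⊢
    intro k
    rw [X.pi_chi]
    have h1 := hj (X.pi c k)
    rwa [X.pi_d] at h1
  -- the masses of the columns on the block
  have hE : ∀ i, (∑ j ∈ B0 X Q, ‖X.s j i‖ ^ 2 = 0) ∨
      (∑ j ∈ B0 X Q, ‖X.s j i‖ ^ 2 = (p : ℝ) ^ 2) := by
    intro i
    obtain ⟨S, hS, hnS, hI⟩ := hISO I p a X Q hQ i i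
    obtain ⟨E, hE⟩ : ∃ E : ℂ, E = ∑ j ∈ B0 X Q, conj (X.s j i) * X.s j i := ⟨_, rfl⟩
    have hci : ∀ u v, IsIntegral ℤ (conj (X.s u v)) := fun u v => by
      rw [X.conj_s]; exact X.s_int _ _
    obtain ⟨m, hm⟩ : ∃ m : ℤ, (m : ℂ) = E := by
      refine hRAT.1 E ?_ ?_
      · rw [hE]
        exact IsIntegral.sum _ (fun j _ => (hci _ _).mul (X.s_int _ _))
      · intro σ
        obtain ⟨c, hc⟩ := X.gal σ
        have hgi : ∀ k, σ (conj (X.s k i) * X.s k i) =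
            conj (X.s (X.pi c k) i) * X.s (X.pi c k) i := by
          intro k
          rw [map_mul, X.s_symm k i, X.conj_s, hc, hc, ← X.pi_mul, mul_comm c, X.pi_mul,
            ← X.conj_s, X.s_symm (X.pi c k) i]
        rw [hE, map_sum, Finset.sum_congr rfl (fun k _ => hgi k)]
        refine Finset.sum_nbij' (X.pi c) (X.pi c⁻¹) ?_ ?_ ?_ ?_ ?_
        · intro k hk
          exact hBpi c k hk
        · intro k hk
          exact hBpi c⁻¹ k hk
        · intro k _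
          rw [← X.pi_mul, inv_mul_cancel, X.pi_one]
        · intro k _
          rw [← X.pi_mul, mul_inv_cancel, X.pi_one]
        · intro k _
          rfl
    have hreal : (m : ℝ) = ∑ j ∈ B0 X Q, ‖X.s j i‖ ^ 2 := by
      have h1 : ∀ k, conj (X.s k i) * X.s k i = ((‖X.s k i‖ ^ 2 : ℝ) : ℂ) := by
        intro k
        rw [mul_comm, Complex.mul_conj, Complex.normSq_eq_norm_sq]
      have h2 : ((m : ℝ) : ℂ) = ((∑ j ∈ B0 X Q, ‖X.s j i‖ ^ 2 : ℝ) : ℂ) := by
        rw [Complex.ofReal_intCast, hm, hE, Finset.sum_congr rfl (fun k _ => h1 k),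
          ← Complex.ofReal_sum]
      exact_mod_cast h2
    rw [← hE, ← hm] at hI
    have h2 := dvd2X hQ hpp _ S hS hnS hI
    have h4 : ∑ j ∈ B0 X Q, ‖X.s j i‖ ^ 2 + ∑ j ∈ (B0 X Q)ᶜ, ‖X.s j i‖ ^ 2 = (p : ℝ) ^ 2 := by
      rw [Finset.sum_add_sum_compl, hnorm]
    have h5 : 0 ≤ ∑ j ∈ (B0 X Q)ᶜ, ‖X.s j i‖ ^ 2 := Finset.sum_nonneg (fun _ _ => sq_nonneg _)
    have h6 : m ≤ (p : ℤ) ^ 2 := by
      have : (m : ℝ) ≤ (p : ℝ) ^ 2 := by rw [hreal]; linarith
      exact_mod_cast this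
    have h7 : 0 ≤ ∑ j ∈ B0 X Q, ‖X.s j i‖ ^ 2 := Finset.sum_nonneg (fun _ _ => sq_nonneg _)
    have h8 : 0 ≤ m := by
      have : (0 : ℝ) ≤ m := by rw [hreal]; exact h7
      exact_mod_cast this
    rcases h8.eq_or_lt with h9 | h9
    · left
      rw [← hreal, ← h9]
      simp
    · right
      have h10 : m = (p : ℤ) ^ 2 := le_antisymm h6 (Int.le_of_dvd h9 h2)
      rw [← hreal, h10]
      push_cast
      rfl
  have key : ∀ j ∈ B0 X Q, ∀ i, X.s j i ≠ 0 → ∀ k, X.s k i ≠ 0 → k ∈ B0 X Q := by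
    intro j hj i hji k hki
    by_contra hk
    have h1 : 0 < ∑ l ∈ B0 X Q, ‖X.s l i‖ ^ 2 := by
      refine lt_of_lt_of_le (?_ : 0 < ‖X.s j i‖ ^ 2)
        (Finset.single_le_sum (f := fun l => ‖X.s l i‖ ^ 2) (fun _ _ => sq_nonneg _) hj)
      have := norm_pos_iff.2 hji
      positivity
    rcases hE i with h2 | h2
    · rw [h2] at h1
      exact lt_irrefl _ h1
    · have h4 : ∑ j ∈ B0 X Q, ‖X.s j i‖ ^ 2 + ∑ j ∈ (B0 X Q)ᶜ, ‖X.s j i‖ ^ 2 = (p : ℝ) ^ 2 := by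
        rw [Finset.sum_add_sum_compl, hnorm]
      have h9 : ∑ j ∈ (B0 X Q)ᶜ, ‖X.s j i‖ ^ 2 = 0 := by linarith
      have h10 := (Finset.sum_eq_zero_iff_of_nonneg (fun _ _ => sq_nonneg _)).1 h9 k
        (Finset.mem_compl.2 hk)
      exact hki (norm_eq_zero.1 (pow_eq_zero_iff (two_ne_zero) |>.1 h10))
  -- the columns which meet the block
  obtain ⟨B', hB'⟩ : ∃ B' : Finset I, ∀ i, i ∈ B' ↔ ∃ j ∈ B0 X Q, X.s j i ≠ 0 :=
    ⟨Finset.univ.filter fun i => ∃ j ∈ B0 X Q, X.s j i ≠ 0, fun i => by simp⟩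
  have hsup1 : ∀ i ∈ B', ∀ k, X.s k i ≠ 0 → k ∈ B0 X Q := by
    intro i hi k hk
    obtain ⟨j, hj, hji⟩ := (hB' i).1 hi
    exact key j hj i hji k hk
  have hsup2 : ∀ i ∈ B', ∀ k, X.s k i ≠ 0 → k ∈ B' := by
    intro i hi k hk
    have hw := X.weil 1 k i
    rw [inv_one, X.pi_one] at hw
    have hr : (p : ℂ) * (X.t k ^ (-((1 : (ZMod (p ^ a))ˣ) : ZMod (p ^ a))).val *
        X.t i ^ (-((1 : (ZMod (p ^ a))ˣ) : ZMod (p ^ a))).val) * X.s k i ≠ 0 := by
      refine mul_ne_zero (mul_ne_zero (by exact_mod_cast hpp.ne_zero) (mul_ne_zero ?_ ?_)) hk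
      · exact pow_ne_zero _ (ht0 k)
      · exact pow_ne_zero _ (ht0 i)
    rw [← hw] at hr
    obtain ⟨l, _, hl⟩ := Finset.exists_ne_zero_of_sum_ne_zero hr
    have h1 : X.s k l ≠ 0 := fun h => hl (by rw [h]; ring)
    have h2 : X.s l i ≠ 0 := fun h => hl (by rw [h]; ring)
    rw [hB']
    exact ⟨l, hsup1 i hi l h2, by rw [X.s_symm]; exact h1⟩
  have hcol : ∀ i ∈ B', ∑ j ∈ B0 X Q ∩ B', ‖X.s j i‖ ^ 2 = (p : ℝ) ^ 2 := by
    intro i hi
    rw [← hnorm i]
    apply Finset.sum_subset (Finset.subset_univ _)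
    intro k _ hk
    by_cases h : X.s k i = 0
    · rw [h]; simp
    · exact absurd (Finset.mem_inter.2 ⟨hsup1 i hi k h, hsup2 i hi k h⟩) hk
  have hrow : ∀ j, ∑ i, ‖X.s j i‖ ^ 2 = (p : ℝ) ^ 2 := by
    intro j
    rw [← hnorm j]
    refine Finset.sum_congr rfl fun i _ => ?_
    rw [X.s_symm]
  have hcount1 : B'.card ≤ (B0 X Q ∩ B').card := by
    have h1 : (B'.card : ℝ) * (p : ℝ) ^ 2 ≤ ((B0 X Q ∩ B').card : ℝ) * (p : ℝ) ^ 2 := by
      calc (B'.card : ℝ) * (p : ℝ) ^ 2 = ∑ i ∈ B', ∑ j ∈ B0 X Q ∩ B', ‖X.s j i‖ ^ 2 := by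
            rw [Finset.sum_congr rfl hcol, Finset.sum_const, nsmul_eq_mul]
        _ = ∑ j ∈ B0 X Q ∩ B', ∑ i ∈ B', ‖X.s j i‖ ^ 2 := Finset.sum_comm
        _ ≤ ∑ j ∈ B0 X Q ∩ B', (p : ℝ) ^ 2 := by
            refine Finset.sum_le_sum fun j _ => ?_
            rw [← hrow j]
            exact Finset.sum_le_sum_of_subset_of_nonneg (Finset.subset_univ _)
              fun _ _ _ => sq_nonneg _
        _ = ((B0 X Q ∩ B').card : ℝ) * (p : ℝ) ^ 2 := by
            rw [Finset.sum_const, nsmul_eq_mul]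
    exact_mod_cast le_of_mul_le_mul_right h1 hp0
  have hC : B0 X Q ∩ B' = B' := Finset.eq_of_subset_of_card_le Finset.inter_subset_right hcount1
  have hsub : B' ⊆ B0 X Q := by
    rw [← hC]
    exact Finset.inter_subset_left
  have hcount2 : (B0 X Q).card ≤ B'.card := by
    have h1 : ((B0 X Q).card : ℝ) * (p : ℝ) ^ 2 ≤ (B'.card : ℝ) * (p : ℝ) ^ 2 := by
      calc ((B0 X Q).card : ℝ) * (p : ℝ) ^ 2 = ∑ j ∈ B0 X Q, ∑ i ∈ B', ‖X.s j i‖ ^ 2 := by
            have h2 : ∀ j ∈ B0 X Q, ∑ i ∈ B', ‖X.s j i‖ ^ 2 = (p : ℝ) ^ 2 := by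
              intro j hj
              rw [← hrow j]
              apply Finset.sum_subset (Finset.subset_univ _)
              intro i _ hi
              by_cases h : X.s j i = 0
              · rw [h]; simp
              · exact absurd ((hB' i).2 ⟨j, hj, h⟩) hi
            rw [Finset.sum_congr rfl h2, Finset.sum_const, nsmul_eq_mul]
        _ = ∑ i ∈ B', ∑ j ∈ B0 X Q, ‖X.s j i‖ ^ 2 := Finset.sum_comm
        _ ≤ ∑ i ∈ B', (p : ℝ) ^ 2 := by
            refine Finset.sum_le_sum fun i _ => ?_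
            rw [← hnorm i]
            exact Finset.sum_le_sum_of_subset_of_nonneg (Finset.subset_univ _)
              fun _ _ _ => sq_nonneg _
        _ = (B'.card : ℝ) * (p : ℝ) ^ 2 := by
            rw [Finset.sum_const, nsmul_eq_mul]
    exact_mod_cast le_of_mul_le_mul_right h1 hp0
  have hBB : B' = B0 X Q := Finset.eq_of_subset_of_card_le hsub hcount2
  have hyB : ∀ j, j ∉ B0 X Q → X.y j = 0 := by
    intro j hj
    by_contra h
    apply hj
    refine hsup1 X.o (by rw [hBB]; exact hoB) j ?_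
    rw [X.s_o]
    exact_mod_cast h
  -- all `y j` are divisible by `p`
  have hyd : ∀ j, (p : ℤ) ∣ X.y j := by
    intro j
    by_cases hj : j ∈ B0 X Q
    · rw [hmem] at hj
      obtain ⟨w, hw1, hw2⟩ := X.con
      have hm : ¬ (p : ℤ) ∣ (X.m : ℤ) ^ 2 := by
        intro h
        exact X.cop (by exact_mod_cast pp.dvd_of_dvd_pow h)
      have hQm : ¬ Q ((X.m : ℂ) ^ 2) := by
        intro h
        apply hm
        rw [← hQ.int_iff]
        push_cast
        exact h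
      have hC' : (X.m : ℂ) ^ 2 * X.y X.o = ∑ k, w X.o k * X.d k := by
        have h := hw2 X.o X.o
        rw [hso, X.d_o] at h
        rw [h]
        simp [X.o_chi]
      have hdiff : Q ((∑ k, w X.o k * X.chi j k) - ∑ k, w X.o k * X.d k) := by
        rw [← Finset.sum_sub_distrib]
        apply Finset.sum_induction _ Q hQ.add hQ.zero
        intro k _
        rw [← mul_sub]
        exact hQ.mul _ _ (hw1 X.o k) (hj k)
      have h4 : Q (X.s j X.o - X.d j * X.y X.o) := by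
        have h1 : (X.m : ℂ) ^ 2 * (X.s j X.o - X.d j * X.y X.o) =
            (X.d j : ℂ) * ((∑ k, w X.o k * X.chi j k) - ∑ k, w X.o k * X.d k) := by
          rw [mul_sub, mul_sub, ← hw2 X.o j, ← hC']
          ring
        have h2 : Q ((X.m : ℂ) ^ 2 * (X.s j X.o - X.d j * X.y X.o)) := by
          rw [h1]
          exact hQ.mul _ _ (hnat _) hdiff
        rcases hQ.prime _ _ ((hnat _).pow 2)
          ((X.s_int j X.o).sub ((hnat _).mul (hint _))) h2 with h | h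
        · exact absurd h hQm
        · exact h
      rw [X.s_o] at h4
      have h5 : Q ((X.y j - (X.d j : ℤ) * X.y X.o : ℤ) : ℂ) := by
        push_cast
        exact h4
      rw [hQ.int_iff] at h5
      have h6 := dvd_add h5 (Dvd.dvd.mul_left hx (X.d j : ℤ))
      simpa using h6
    · rw [hyB j hj]
      exact dvd_zero _
  -- exactly one `y j` is not zero
  obtain ⟨k, hk, hkt⟩ := X.ex
  have hle : ∀ j, X.y j ≠ 0 → (p : ℤ) ^ 2 ≤ X.y j ^ 2 := by
    intro j hj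
    exact Int.le_of_dvd (by positivity : 0 < X.y j ^ 2) (pow_dvd_pow_of_dvd (hyd j) 2)
  have hppos : 0 < (p : ℤ) ^ 2 := by positivity
  have huniq : ∀ j, j ≠ k → X.y j = 0 := by
    intro j hj
    by_contra h
    have h3 : X.y j ^ 2 + X.y k ^ 2 ≤ ∑ k, X.y k ^ 2 := by
      rw [← Finset.sum_pair hj (f := fun k => X.y k ^ 2)]
      exact Finset.sum_le_sum_of_subset_of_nonneg (Finset.subset_univ _) fun k _ _ => sq_nonneg _
    rw [hysq] at h3
    have h4 := hle j h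
    have h5 := hle k hk
    linarith
  have hko : k ≠ X.o := by
    rintro rfl
    rw [X.t_o, one_pow] at hkt
    exact hkt rfl
  have hxo : X.y X.o = 0 := huniq X.o hko.symm
  have hw := X.weil 1 X.o X.o
  rw [inv_one, X.pi_one, hso X.o, hxo] at hw
  rw [Finset.sum_eq_single k] at hw
  · rw [hso, X.s_o, Int.cast_zero, mul_zero] at hw
    have h1 : (X.y k : ℂ) ≠ 0 := by exact_mod_cast hk
    exact mul_ne_zero (pow_ne_zero _ (ht0 k)) (mul_ne_zero h1 h1) hw
  · intro j _ hj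
    rw [hso, huniq j hj]
    simp
  · intro h
    exact absurd (Finset.mem_univ _) h

end Pool.Agent.Helper47.PQ0
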